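import Mathlib
import Pool.Agent.R261.CD.Found
import Pool.Agent.R261.CD.Part1
import Pool.Agent.R261.CD.Part2

/-!
# MP_c27d8d_an: the centre of distances of the adjoint Cantorval of the geometric series

Full answer to Q1: the set `C(Ê_q)` is determined for every `q ∈ (0, 1/2)`.

* For `1/3 ≤ q < 1/2` it is `{0}`.
* For `0 < q < 1/3`, with `r₁ = q²/(1-q)` and `ℓ = q - r₁`, it consists of `0` and of all
  `q^(2k) a`, `k ≥ 0`, where `a ≥ r₁` or `a = q² + q³ + ... + q^(n+2)` for some `n ≥ 0`, and where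
  `2a ≤ ℓ` or `2a = ℓ + q² v` for some `v ∈ K_q`.  Here `K_q` is the unique nonempty compact set
  with `K = [2r₁, q] ∪ q² K ∪ (2r₁ - q² K) ∪ (q + q² K)`.
-/

set_option autoImplicit false

open Set Finset

namespace Pool.Agent.Results.MP_c27d8d_an.CentreOfDistances

/-- The digit `0` or `1` as a real number. -/
def digit (b : Bool) : ℝ := if b then 1 else 0

/-- The achievement set `E_q` of the series `∑_{n ≥ 1} q^n`. -/
def achievementSet (q : ℝ) : Set ℝ :=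
  {x | ∃ ε : ℕ → Bool, x = ∑' n : ℕ, digit (ε n) * q ^ (n + 1)}

/-- `r_m = q^(m+1) / (1 - q)`. -/
noncomputable def rem (q : ℝ) (m : ℕ) : ℝ := q ^ (m + 1) / (1 - q)

/-- `s(ε)` for a word `ε` of length `m`. -/
def wordSum (q : ℝ) {m : ℕ} (ε : Fin m → Bool) : ℝ :=
  ∑ i : Fin m, digit (ε i) * q ^ (i.val + 1)

/-- `G_m`, the union of the gaps removed at step `m ≥ 1`. -/
def gapUnion (q : ℝ) (m : ℕ) : Set ℝ :=
  ⋃ ε : Fin (m - 1) → Bool, Set.Ioo (wordSum q ε + rem q m) (wordSum q ε + q ^ m)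

/-- The adjoint Cantorval `Ê_q`: the gaps removed at odd steps are put back. -/
def adjointCantorval (q : ℝ) : Set ℝ :=
  achievementSet q ∪ ⋃ (m : ℕ) (_ : Odd m), gapUnion q m

/-- The centre of distances of a set of real numbers. -/
def centre (A : Set ℝ) : Set ℝ := {α | 0 ≤ α ∧ ∀ x ∈ A, ∃ y ∈ A, |x - y| = α}

/-- The operator `K ↦ [2r₁, q] ∪ q² K ∪ (2r₁ - q² K) ∪ (q + q² K)`. -/
def Phi (q : ℝ) (K : Set ℝ) : Set ℝ :=
  Set.Icc (2 * rem q 1) q ∪ (fun u => q ^ 2 * u) '' K ∪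
    (fun u => 2 * rem q 1 - q ^ 2 * u) '' K ∪ (fun u => q + q ^ 2 * u) '' K

/-- The set described in the answer for `q < 1/3`, in terms of the self-similar set `K`. -/
def answer (q : ℝ) (K : Set ℝ) : Set ℝ :=
  {0} ∪ {α | ∃ (k : ℕ) (a : ℝ), α = q ^ (2 * k) * a ∧
    (rem q 1 ≤ a ∨ ∃ n : ℕ, a = ∑ i ∈ Finset.range (n + 1), q ^ (i + 2)) ∧
    (2 * a ≤ q - rem q 1 ∨ ∃ v ∈ K, 2 * a = q - rem q 1 + q ^ 2 * v)}

theorem adj_eq (q : ℝ) : adjointCantorval q = R261.CD.Ehat q := rfl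

theorem rem_one (q : ℝ) : rem q 1 = q * (q / (1 - q)) := by
  unfold rem; ring

theorem geo {q : ℝ} (h1 : q < 1 / 2) (n : ℕ) :
    ∑ i ∈ Finset.range (n + 1), q ^ (i + 2) = q * (q / (1 - q)) * (1 - q ^ (n + 1)) := by
  have hne : (1 - q) ≠ 0 := by linarith
  have h2 : ∑ i ∈ Finset.range (n + 1), q ^ (i + 2) = q ^ 2 * ∑ i ∈ Finset.range (n + 1), q ^ i := by
    rw [Finset.mul_sum]
    apply Finset.sum_congr rfl
    intro i _
    ring
  have h3 := mul_neg_geom_sum q (n + 1)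
  rw [h2, ← h3]
  field_simp

theorem mem_centre {A : Set ℝ} {α : ℝ} : α ∈ centre A ↔ 0 ≤ α ∧ R261.CD.CC A α := by
  unfold centre R261.CD.CC
  constructor
  · rintro ⟨h0, h⟩
    refine ⟨h0, fun x hx => ?_⟩
    obtain ⟨y, hy, e⟩ := h x hx
    rcases abs_eq h0 |>.1 e with h1 | h1
    · left
      have : x - α = y := by linarith
      rwa [this]
    · right
      have : x + α = y := by linarith
      rwa [this]
  · rintro ⟨h0, h⟩
    refine ⟨h0, fun x hx => ?_⟩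
    rcases h x hx with h1 | h1
    · exact ⟨_, h1, by rw [sub_sub_cancel]; exact abs_of_nonneg h0⟩
    · refine ⟨_, h1, ?_⟩
      have : x - (x + α) = -α := by ring
      rw [this, abs_neg]
      exact abs_of_nonneg h0

theorem Phi_eq (q : ℝ) (K : Set ℝ) : Phi q K = R261.CD.Phi q (q / (1 - q)) K := by
  unfold Phi R261.CD.Phi
  rw [rem_one]

theorem answer_mem {q : ℝ} (h1 : q < 1 / 2) (K : Set ℝ) (α : ℝ) : α ∈ answer q K ↔
    α = 0 ∨ ∃ (j : ℕ) (a : ℝ), α = q ^ (2 * j) * a ∧ R261.CD.DD q (q / (1 - q)) K a := by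
  unfold answer R261.CD.DD
  rw [rem_one]
  simp only [geo h1]
  rfl

/-- **Main theorem.**  The centre of distances of `Ê_q` for every `q ∈ (0, 1/2)`. -/
theorem result (q : ℝ) (h0 : 0 < q) (h1 : q < 1 / 2) :
    (1 / 3 ≤ q → centre (adjointCantorval q) = {0}) ∧
    (q < 1 / 3 → ∃ K : Set ℝ, (K.Nonempty ∧ IsCompact K ∧ K = Phi q K) ∧
      (∀ K' : Set ℝ, K'.Nonempty → IsCompact K' → K' = Phi q K' → K' = K) ∧
      centre (adjointCantorval q) = answer q K) := by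
  have hc := R261.CD.cvl h0 h1
  constructor
  · intro hq
    ext α
    rw [mem_centre, adj_eq, Set.mem_singleton_iff]
    constructor
    · rintro ⟨h2, h3⟩
      exact hc.part1 hq h2 h3
    · rintro rfl
      refine ⟨le_rfl, fun x hx => ?_⟩
      left; simpa using hx
  · intro hq
    refine ⟨{v | R261.CD.VV (q / (1 - q)) (R261.CD.Ehat q) v}, ⟨⟨0, hc.Vzero⟩, hc.V_compact, ?_⟩, ?_, ?_⟩
    · rw [Phi_eq]; exact hc.V_eqn hq
    · intro K' hne hK' e
      rw [Phi_eq] at e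
      exact R261.CD.Phi_unique h0 (by linarith) hK' hc.V_compact hne ⟨0, hc.Vzero⟩ e (hc.V_eqn hq)
    · ext α
      rw [mem_centre, adj_eq, answer_mem h1]
      exact hc.CC_iff hq α

end Pool.Agent.Results.MP_c27d8d_an.CentreOfDistances
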